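import Mathlib
import Pool.Agent.H26.G6Main

/-!
# The extremal type of `G₆`: the threshold is `1/25`

The graphs `tGraph`, `quasiClique`, the number `ex` and the notion `IsAsymptoticMaximiser` are
defined in `Pool.Agent.H26.G6Defs`.
-/

namespace Pool.Agent.Results.MP_806cc9_co.ExtremalType

open Pool.Agent.H26.G6

/-- * (1) `T(t)` and the quasi-cliques exist at every density (sizes can be rounded);
* (2) for `β ∈ [0, 1/25)` some `T(t)`, `t ∈ (0, 1)`, is an asymptotic maximiser, for all roundings;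
* (3) for `β ∈ [1/25, 1]` the quasi-cliques are asymptotic maximisers;
* (4) for `β ∈ (0, 1/25)` the quasi-cliques are not asymptotic maximisers;
* (5) for `β ∈ [1/25, 1)` no `T(t)`, `t ∈ (0, 1)`, is an asymptotic maximiser;
* (6) for `γ ∈ (0, 1)`, the dichotomy with `[0, γ)` and `[γ, 1]` holds exactly for `γ = 1/25`, and
  the one with `[0, γ]` and `[γ, 1]` never holds. -/
theorem result :
    (∀ β : ℝ, 0 ≤ β → β ≤ 1 → (∀ t : ℝ, 0 ≤ t → t ≤ 1 → ∃ y r : ℕ → ℕ, TSizes β t y r) ∧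
      ∃ a b : ℕ → ℕ, KSizes β a b) ∧
    (∀ β : ℝ, 0 ≤ β → β < 1 / 25 → ∃ t : ℝ, 0 < t ∧ t < 1 ∧ ∀ y r : ℕ → ℕ, TSizes β t y r →
      IsAsymptoticMaximiser β (fun n => tGraph n (y n) (r n))) ∧
    (∀ β : ℝ, 1 / 25 ≤ β → β ≤ 1 → ∀ a b : ℕ → ℕ, KSizes β a b →
      IsAsymptoticMaximiser β (fun n => quasiClique n (a n) (b n))) ∧
    (∀ β : ℝ, 0 < β → β < 1 / 25 → ∀ a b : ℕ → ℕ, KSizes β a b →
      ¬ IsAsymptoticMaximiser β (fun n => quasiClique n (a n) (b n))) ∧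
    (∀ β : ℝ, 1 / 25 ≤ β → β < 1 → ∀ t : ℝ, 0 < t → t < 1 → ∀ y r : ℕ → ℕ, TSizes β t y r →
      ¬ IsAsymptoticMaximiser β (fun n => tGraph n (y n) (r n))) ∧
    (∀ γ : ℝ, 0 < γ → γ < 1 →
      (((∀ β : ℝ, 0 ≤ β → β < γ → ∃ t : ℝ, 0 < t ∧ t < 1 ∧ ∃ y r : ℕ → ℕ, TSizes β t y r ∧
          IsAsymptoticMaximiser β (fun n => tGraph n (y n) (r n))) ∧
        (∀ β : ℝ, γ ≤ β → β ≤ 1 → ∃ a b : ℕ → ℕ, KSizes β a b ∧
          IsAsymptoticMaximiser β (fun n => quasiClique n (a n) (b n)))) ↔ γ = 1 / 25) ∧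
      ¬ ((∀ β : ℝ, 0 ≤ β → β ≤ γ → ∃ t : ℝ, 0 < t ∧ t < 1 ∧ ∃ y r : ℕ → ℕ, TSizes β t y r ∧
          IsAsymptoticMaximiser β (fun n => tGraph n (y n) (r n))) ∧
        (∀ β : ℝ, γ ≤ β → β ≤ 1 → ∃ a b : ℕ → ℕ, KSizes β a b ∧
          IsAsymptoticMaximiser β (fun n => quasiClique n (a n) (b n))))) := by
  obtain ⟨h1, h2, h3, h4, h5⟩ := main_G6
  refine ⟨h1, h2, h3, h4, h5, fun γ g0 g1 => ⟨⟨?_, ?_⟩, ?_⟩⟩
  · rintro ⟨k1, k2⟩
    rcases lt_trichotomy γ (1 / 25) with h | h | h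
    · obtain ⟨a, b, c1, c2⟩ := k2 γ le_rfl g1.le
      exact absurd c2 (h4 γ g0 h a b c1)
    · exact h
    · obtain ⟨t, t0, t1, y, r, c1, c2⟩ := k1 (1 / 25) (by norm_num) h
      exact absurd c2 (h5 (1 / 25) le_rfl (by norm_num) t t0 t1 y r c1)
  · rintro rfl
    constructor
    · intro β b0 b1
      obtain ⟨t, t0, t1, ht⟩ := h2 β b0 b1
      obtain ⟨y, r, hyr⟩ := (h1 β b0 (by linarith)).1 t t0.le t1.le
      exact ⟨t, t0, t1, y, r, hyr, ht y r hyr⟩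
    · intro β b0 b1
      obtain ⟨a, b, hab⟩ := (h1 β (by linarith) b1).2
      exact ⟨a, b, hab, h3 β b0 b1 a b hab⟩
  · rintro ⟨k1, k2⟩
    rcases lt_or_ge γ (1 / 25) with h | h
    · obtain ⟨a, b, c1, c2⟩ := k2 γ le_rfl g1.le
      exact absurd c2 (h4 γ g0 h a b c1)
    · obtain ⟨t, t0, t1, y, r, c1, c2⟩ := k1 (1 / 25) (by norm_num) h
      exact absurd c2 (h5 (1 / 25) le_rfl (by norm_num) t t0 t1 y r c1)

end Pool.Agent.Results.MP_806cc9_co.ExtremalType
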